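import Pool.Agent.Helper488.Probe.Main

set_option autoImplicit false

namespace Pool.Agent.Results.MP_f9c708_lc.ThreePerEdge

open Pool.Agent.Helper488.Probe

/-- Every adaptive strategy which determines the convex `n`-gons with interior point `p` by at most
`m` chord length probes satisfies `m ≥ 3 n - 14`. -/
theorem result (n m : ℕ) (p : ℂ) (σ : Strategy) (h : Determines n p m σ) : 3 * n ≤ m + 14 :=
  lower h

end Pool.Agent.Results.MP_f9c708_lc.ThreePerEdge
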