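import Mathlib
import Pool.Agent.Helper877.Probe.Main

/-!
# Probing convex `n`-gons by chord lengths: at least `2 n` probes are necessary
-/

set_option autoImplicit false

namespace Pool.Agent.Results.MP_f9c708_lc.TwoN

open Pool.Agent.Helper877.Probe (tr tame adaptive base_config equiv_2n)

/-- The Euclidean plane. -/
abbrev Plane := EuclideanSpace ℝ (Fin 2)

/-- `P` is a convex polygon with exactly `n` vertices: the convex hull of `n` points `v 0, …, v (n-1)`
none of which lies in the convex hull of others. -/
def IsConvexNGon (n : ℕ) (P : Set Plane) : Prop :=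
  ∃ v : Fin n → Plane, ConvexIndependent ℝ v ∧ P = convexHull ℝ (Set.range v)

/-- the unknown polygons: convex `n`-gons having the given point `p` in their interior -/
def Target (n : ℕ) (p : Plane) (P : Set Plane) : Prop := IsConvexNGon n P ∧ p ∈ interior P

/-- A line in the plane, `{x | ⟪a, x⟫ = b}` with `a ≠ 0`. -/
structure Line where
  a : Plane
  b : ℝ
  ha : a ≠ 0

/-- the points of a line -/
def Line.pts (l : Line) : Set Plane := {x | inner ℝ l.a x = l.b}

/-- The answer to a probe: the length (diameter) of the segment `ℓ ∩ P`. -/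
noncomputable def answer (l : Line) (P : Set Plane) : ℝ := Metric.diam (l.pts ∩ P)

/-- An adaptive probing strategy: from the list of answers received so far it computes the next line to
be probed, or `none` (stop). -/
abbrev Strategy := List ℝ → Option Line

/-- The list of answers received within the first `k` probes when the unknown polygon is `P`. -/
noncomputable def transcript (σ : Strategy) (P : Set Plane) : ℕ → List ℝ
  | 0 => []
  | k + 1 => match σ (transcript σ P k) with
    | none => transcript σ P k
    | some l => transcript σ P k ++ [answer l P]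

/-- `m` probes suffice for convex `n`-gons around `p`: some strategy (i) only uses lines meeting the
interior of every target polygon consistent with the answers received so far, (ii) never uses more than
`m` probes, (iii) determines the polygon: two target polygons giving the same answers are equal. -/
def ProbesSuffice (n : ℕ) (p : Plane) (m : ℕ) : Prop :=
  ∃ σ : Strategy,
    (∀ P : Set Plane, Target n p P → ∀ (k : ℕ) (l : Line), σ (transcript σ P k) = some l →
      (l.pts ∩ interior P).Nonempty) ∧
    (∀ P : Set Plane, Target n p P → σ (transcript σ P m) = none) ∧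
    (∀ P Q : Set Plane, Target n p P → Target n p Q → transcript σ P m = transcript σ Q m → P = Q)

theorem transcript_eq (σ : Strategy) {n : ℕ} (v : Fin n → Plane) (k : ℕ) :
    transcript σ (convexHull ℝ (Set.range v)) k =
      tr (fun (l : Line) (w : Fin n → Plane) =>
        Metric.diam ({y | inner ℝ l.a y = l.b} ∩ convexHull ℝ (Set.range w))) σ v k := by
  induction k with
  | zero => rfl
  | succ k ih =>
    simp only [transcript, tr]
    rw [ih]
    cases σ (tr (fun (l : Line) (w : Fin n → Plane) =>
      Metric.diam ({y | inner ℝ l.a y = l.b} ∩ convexHull ℝ (Set.range w))) σ v k) <;> rfl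

theorem confuse (n : ℕ) (p : Plane) (m : ℕ) (hn : 3 ≤ n) (hm : m < 2 * n) (σ : Strategy) :
    ∃ P Q : Set Plane, Target n p P ∧ Target n p Q ∧ P ≠ Q ∧ transcript σ P m = transcript σ Q m := by
  obtain ⟨U, hU, hUne, hUt, hUi⟩ := base_config n hn p
  obtain ⟨e⟩ := equiv_2n n
  have hVo : IsOpen (e ⁻¹' U) := hU.preimage e.continuous
  have hVne : (e ⁻¹' U).Nonempty := by
    obtain ⟨v, hv⟩ := hUne
    exact ⟨e.symm v, by simpa using hv⟩
  obtain ⟨v, hv, w, hw, hvw, htr⟩ := adaptive
    (fun (l : Line) (w : Fin n → Plane) =>
        Metric.diam ({y | inner ℝ l.a y = l.b} ∩ convexHull ℝ (Set.range w)))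
    (fun l k V φ hV hVne hφ => tame l.a l.b l.ha V hV hVne φ hφ) σ U (2 * n) (e ⁻¹' U) e hVo hVne
    e.contDiff.contDiffOn e.injective.injOn (fun x hx => hx) m hm
  refine ⟨convexHull ℝ (Set.range v), convexHull ℝ (Set.range w), ⟨⟨v, (hUt v hv).1, rfl⟩, (hUt v hv).2⟩,
    ⟨⟨w, (hUt w hw).1, rfl⟩, (hUt w hw).2⟩, fun h => hvw (hUi v hv w hw h), ?_⟩
  rw [transcript_eq, transcript_eq]
  exact htr

/-- **Lower bound `m(n) ≥ 2 n`.** For every `n ≥ 3` and every interior point `p`: if `m` probes suffice,
then `m ≥ 2 n`.  More precisely, for every strategy (even with inadmissible lines) and every `m < 2 n`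
there are two different convex `n`-gons with `p` in their interiors that give the same first `m`
answers. -/
theorem result :
    (∀ (n : ℕ) (p : Plane) (m : ℕ), 3 ≤ n → ProbesSuffice n p m → 2 * n ≤ m) ∧
    (∀ (n : ℕ) (p : Plane) (m : ℕ), 3 ≤ n → m < 2 * n → ∀ σ : Strategy,
      ∃ P Q : Set Plane, Target n p P ∧ Target n p Q ∧ P ≠ Q ∧
        transcript σ P m = transcript σ Q m) := by
  refine ⟨fun n p m hn h => ?_, fun n p m hn hm σ => confuse n p m hn hm σ⟩
  by_contra hm
  push Not at hm
  obtain ⟨σ, -, -, hσ⟩ := h
  obtain ⟨P, Q, hP, hQ, hne, htr⟩ := confuse n p m hn hm σ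
  exact hne (hσ P Q hP hQ htr)

end Pool.Agent.Results.MP_f9c708_lc.TwoN
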